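import Pool.Agent.Work.MP_86fe4b_lc.Final

/-!
# The equational theory of representable implication semigroups is undecidable

This answers Q1 of the problem negatively.

Idea.  Let `z = x_0`, `T = z → z` and, for a term `s`, let `I(s)` be the union of `s`, `s;T`,
`T;s` and `T;s;T`.  Whether a pair `(p, q)` belongs to the value of a term depends only on pairs
`(r, s)` of `⊤` with `p ≤ r` and `s ≤ q` (where `≤` is `⊤` or equality).  Hence the equation
`I(z) ∪ I(¬(a₁ → b₁)) ∪ ... ∪ (l → r) = T`, with `¬ s` standing for `s → z`, is valid iff the
quasi-inequality `z = ∅, a₁ ≤ b₁, ..., aₙ ≤ bₙ ⊢ l ≤ r` is.  So no constant for the empty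
relation is needed.  The halting problem of a fixed Turing machine is then encoded in such
quasi-inequalities: left stacks and right stacks are the points of the intended model, symbols are
push/pop relations, and a state is the relation formed by the halting configurations.
-/

namespace Pool.Agent.Results.MP_86fe4b_lc.Undecidable

open Pool.Agent.Work.MP_86fe4b_lc

universe u v

/-- The set of equations `s ≈ t` in the signature `{→, ;}` that are valid in every representable
implication semigroup is not decidable. -/
theorem result : ¬ ComputablePred (fun p : Term × Term => ValidEq.{u, v} p.1 p.2) :=
  undecidable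

end Pool.Agent.Results.MP_86fe4b_lc.Undecidable
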